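import Pool.Agent.H525.QF.Stm

/-!
# Residue classes and scaling
-/

set_option autoImplicit false
set_option linter.unusedSectionVars false

namespace Pool.Agent.H277.QF

open Polynomial Pool.Agent.H525.QF

section ex

variable {K : Type} [Field K] [Fintype K]

theorem dvd_iff {b x r : K[X]} (hb : b.Monic) : b ∣ x + r ↔ x %ₘ b = (-r) %ₘ b := by
  rw [← modByMonic_eq_zero_iff_dvd hb, add_modByMonic, neg_modByMonic]
  exact add_eq_zero_iff_eq_neg

theorem deg_div_lt {b x : K[X]} {k a : ℕ} (hb : b.Monic) (hk : b.natDegree = k) (hka : k ≤ a)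
    (hx : x.degree < a) : (x /ₘ b).degree < ((a - k : ℕ) : WithBot ℕ) := by
  by_cases h : b.degree ≤ x.degree
  · have h1 := degree_add_divByMonic hb h
    have h0 : x /ₘ b ≠ 0 := by
      intro h0
      rw [(divByMonic_eq_zero_iff hb)] at h0
      exact absurd h0 (not_lt.2 h)
    rw [degree_eq_natDegree h0, degree_eq_natDegree hb.ne_zero, hk] at h1
    rw [← h1] at hx
    rw [degree_eq_natDegree h0]
    have h2 : k + (x /ₘ b).natDegree < a := by exact_mod_cast hx
    exact_mod_cast (by omega : (x /ₘ b).natDegree < a - k)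
  · have h0 : x /ₘ b = 0 := (divByMonic_eq_zero_iff hb).2 (not_le.1 h)
    rw [h0, degree_zero]
    exact WithBot.bot_lt_coe _

theorem deg_mod_lt {b : K[X]} {k : ℕ} (hb : b.Monic) (hk : b.natDegree = k) (r : K[X]) :
    (r %ₘ b).degree < (k : WithBot ℕ) := by
  have := degree_modByMonic_lt r hb
  rwa [degree_eq_natDegree hb.ne_zero, hk] at this

theorem deg_mul_lt {b q : K[X]} {k a : ℕ} (hb : b.Monic) (hk : b.natDegree = k) (hka : k ≤ a)
    (hq : q.degree < ((a - k : ℕ) : WithBot ℕ)) : (b * q).degree < (a : WithBot ℕ) := by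
  by_cases h0 : q = 0
  · rw [h0, mul_zero, degree_zero]
    exact WithBot.bot_lt_coe _
  · rw [degree_mul, degree_eq_natDegree hb.ne_zero, hk, degree_eq_natDegree h0]
    rw [degree_eq_natDegree h0] at hq
    have h1 : q.natDegree < a - k := by exact_mod_cast hq
    exact_mod_cast (by omega : k + q.natDegree < a)

theorem div_eq {b q r : K[X]} (hb : b.Monic) :
    (b * q + r %ₘ b) /ₘ b = q ∧ (b * q + r %ₘ b) %ₘ b = r %ₘ b :=
  div_modByMonic_unique q (r %ₘ b) hb ⟨by ring, degree_modByMonic_lt r hb⟩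

theorem card_lt_filter (b τ : K[X]) (k a : ℕ) (T : Finset K[X])
    [DecidablePred fun v : K[X] × K[X] => b ∣ v.1 + τ * v.2] (hb : b.Monic)
    (hk : b.natDegree = k) (hka : k ≤ a) :
    (((lt K a) ×ˢ T).filter (fun v => b ∣ v.1 + τ * v.2)).card =
      ((lt K (a - k)) ×ˢ T).card := by
  refine Finset.card_nbij' (fun v => (v.1 /ₘ b, v.2))
    (fun v => (b * v.1 + (-(τ * v.2)) %ₘ b, v.2)) ?_ ?_ ?_ ?_
  · intro v hv
    simp only [Finset.coe_filter, Finset.mem_product, Set.mem_ofPred_eq] at hv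
    simp only [Finset.coe_product, Set.mem_prod, Finset.mem_coe]
    exact ⟨mem_lt.2 (deg_div_lt hb hk hka (mem_lt.1 hv.1.1)), hv.1.2⟩
  · intro v hv
    simp only [Finset.coe_product, Set.mem_prod, Finset.mem_coe] at hv
    simp only [Finset.coe_filter, Finset.mem_product, Set.mem_ofPred_eq]
    refine ⟨⟨mem_lt.2 ?_, hv.2⟩, ?_⟩
    · refine lt_of_le_of_lt (degree_add_le _ _) (max_lt ?_ ?_)
      · exact deg_mul_lt hb hk hka (mem_lt.1 hv.1)
      · refine (deg_mod_lt hb hk _).trans_le ?_
        exact_mod_cast hka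
    · rw [dvd_iff hb, (div_eq hb).2]
  · intro v hv
    simp only [Finset.coe_filter, Finset.mem_product, Set.mem_ofPred_eq] at hv
    have h1 := (dvd_iff hb).1 hv.2
    refine Prod.ext ?_ rfl
    simp only
    rw [← h1, add_comm]
    exact modByMonic_add_div v.1 b
  · intro v _
    refine Prod.ext ?_ rfl
    exact (div_eq hb).1

theorem card_mon_filter (b τ : K[X]) (k a : ℕ) (T : Finset K[X])
    [DecidablePred fun v : K[X] × K[X] => b ∣ v.1 + τ * v.2] (hb : b.Monic)
    (hk : b.natDegree = k) (hka : k ≤ a) :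
    (((mon K a) ×ˢ T).filter (fun v => b ∣ v.1 + τ * v.2)).card =
      ((mon K (a - k)) ×ˢ T).card := by
  refine Finset.card_nbij' (fun v => (v.1 /ₘ b, v.2))
    (fun v => (b * v.1 + (-(τ * v.2)) %ₘ b, v.2)) ?_ ?_ ?_ ?_
  · intro v hv
    simp only [Finset.coe_filter, Finset.mem_product, Set.mem_ofPred_eq] at hv
    simp only [Finset.coe_product, Set.mem_prod, Finset.mem_coe]
    obtain ⟨h1, h2⟩ := mem_mon.1 hv.1.1
    refine ⟨mem_mon.2 ⟨?_, ?_⟩, hv.1.2⟩
    · have h3 : b.degree ≤ v.1.degree := by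
        rw [degree_eq_natDegree hb.ne_zero, degree_eq_natDegree h1.ne_zero, hk, h2]
        exact_mod_cast hka
      have h4 := leadingCoeff_divByMonic_of_monic hb h3
      rw [h1.leadingCoeff] at h4
      exact h4
    · rw [natDegree_divByMonic _ hb, hk, h2]
  · intro v hv
    simp only [Finset.coe_product, Set.mem_prod, Finset.mem_coe] at hv
    simp only [Finset.coe_filter, Finset.mem_product, Set.mem_ofPred_eq]
    obtain ⟨h1, h2⟩ := mem_mon.1 hv.1
    have h3 : (b * v.1).Monic := hb.mul h1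
    have h4 : (b * v.1).natDegree = a := by
      rw [hb.natDegree_mul h1, hk, h2]
      omega
    have h5 : ((-(τ * v.2)) %ₘ b).degree < (b * v.1).degree := by
      rw [degree_eq_natDegree h3.ne_zero, h4]
      refine (deg_mod_lt hb hk _).trans_le ?_
      exact_mod_cast hka
    refine ⟨⟨mem_mon.2 ⟨h3.add_of_left h5, ?_⟩, hv.2⟩, ?_⟩
    · rw [natDegree_add_eq_left_of_degree_lt h5, h4]
    · rw [dvd_iff hb, (div_eq hb).2]
  · intro v hv
    simp only [Finset.coe_filter, Finset.mem_product, Set.mem_ofPred_eq] at hv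
    have h1 := (dvd_iff hb).1 hv.2
    refine Prod.ext ?_ rfl
    simp only
    rw [← h1, add_comm]
    exact modByMonic_add_div v.1 b
  · intro v _
    refine Prod.ext ?_ rfl
    exact (div_eq hb).1

end ex

section sc

variable {K : Type} [Field K] [Fintype K]

theorem degree_C_mul_of_ne {c : K} (hc : c ≠ 0) (p : K[X]) : (C c * p).degree = p.degree := by
  rw [degree_mul, degree_C hc, zero_add]

/-- Splitting off the pairs whose second component has degree `m`. -/
theorem split (P : K[X] × K[X] → Prop) [DecidablePred P]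
    (hP : ∀ (c : K), c ≠ 0 → ∀ v : K[X] × K[X], P (C c * v.1, C c * v.2) ↔ P v) (a m : ℕ) :
    (((lt K a) ×ˢ (lt K (m + 1))).filter P).card =
      (((lt K a) ×ˢ (lt K m)).filter P).card +
        (Fintype.card K - 1) * (((lt K a) ×ˢ (mon K m)).filter P).card := by
  classical
  rw [← Finset.card_filter_add_card_filter_not (s := ((lt K a) ×ˢ (lt K (m + 1))).filter P)
    (fun v : K[X] × K[X] => v.2 ∈ lt K m)]
  congr 1
  · congr 1
    ext v
    simp only [Finset.mem_filter, Finset.mem_product, mem_lt]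
    constructor
    · rintro ⟨⟨⟨h1, _⟩, h3⟩, h4⟩
      exact ⟨⟨h1, h4⟩, h3⟩
    · rintro ⟨⟨h1, h4⟩, h3⟩
      refine ⟨⟨⟨h1, h4.trans_le ?_⟩, h3⟩, h4⟩
      exact_mod_cast Nat.le_succ m
  · have h1 : (Fintype.card K - 1) * (((lt K a) ×ˢ (mon K m)).filter P).card =
        (((Finset.univ : Finset K).erase 0) ×ˢ (((lt K a) ×ˢ (mon K m)).filter P)).card := by
      rw [Finset.card_product, Finset.card_erase_of_mem (Finset.mem_univ _), Finset.card_univ]
    rw [h1]
    refine Finset.card_nbij'
      (fun v => (v.2.leadingCoeff, (C v.2.leadingCoeff⁻¹ * v.1, C v.2.leadingCoeff⁻¹ * v.2)))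
      (fun w => (C w.1 * w.2.1, C w.1 * w.2.2)) ?_ ?_ ?_ ?_
    · intro v hv
      simp only [Finset.coe_filter, Finset.mem_filter, Finset.mem_product, Set.mem_ofPred_eq,
        mem_lt] at hv
      obtain ⟨⟨⟨h2, h3⟩, h4⟩, h5⟩ := hv
      have h6 : v.2 ≠ 0 := by
        intro h
        rw [h, degree_zero] at h5
        exact h5 (WithBot.bot_lt_coe _)
      have h7 : v.2.leadingCoeff ≠ 0 := leadingCoeff_ne_zero.2 h6
      have h8 : v.2.natDegree = m := by
        rw [degree_eq_natDegree h6] at h3 h5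
        have h9 : v.2.natDegree < m + 1 := by exact_mod_cast h3
        have h10 : ¬ v.2.natDegree < m := fun h => h5 (by exact_mod_cast h)
        omega
      simp only [Finset.coe_product, Set.mem_prod, Finset.mem_coe, Finset.mem_erase,
        Finset.mem_univ, and_true, Finset.mem_filter, Finset.mem_product, mem_lt, mem_mon]
      refine ⟨h7, ⟨?_, ?_, ?_⟩, ?_⟩
      · rw [degree_C_mul_of_ne (inv_ne_zero h7)]
        exact h2
      · rw [Monic, leadingCoeff_mul, leadingCoeff_C, inv_mul_cancel₀ h7]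
      · rw [natDegree_C_mul (inv_ne_zero h7), h8]
      · exact (hP _ (inv_ne_zero h7) v).2 h4
    · intro w hw
      simp only [Finset.coe_product, Set.mem_prod, Finset.mem_coe, Finset.mem_erase,
        Finset.mem_univ, and_true, Finset.mem_filter, Finset.mem_product, mem_lt, mem_mon] at hw
      obtain ⟨h2, ⟨h3, h4, h5⟩, h6⟩ := hw
      simp only [Finset.coe_filter, Finset.mem_filter, Finset.mem_product, Set.mem_ofPred_eq,
        mem_lt]
      rw [degree_C_mul_of_ne h2, degree_C_mul_of_ne h2, degree_eq_natDegree h4.ne_zero, h5]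
      refine ⟨⟨⟨h3, ?_⟩, (hP _ h2 w.2).2 h6⟩, lt_irrefl _⟩
      exact_mod_cast Nat.lt_succ_self m
    · intro v hv
      simp only [Finset.coe_filter, Finset.mem_filter, Finset.mem_product, Set.mem_ofPred_eq,
        mem_lt] at hv
      have h6 : v.2 ≠ 0 := by
        intro h
        have h5 := hv.2
        rw [h, degree_zero] at h5
        exact h5 (WithBot.bot_lt_coe _)
      have h7 : v.2.leadingCoeff ≠ 0 := leadingCoeff_ne_zero.2 h6
      refine Prod.ext ?_ ?_
      · simp only
        rw [← mul_assoc, ← C_mul, mul_inv_cancel₀ h7, C_1, one_mul]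
      · simp only
        rw [← mul_assoc, ← C_mul, mul_inv_cancel₀ h7, C_1, one_mul]
    · intro w hw
      simp only [Finset.coe_product, Set.mem_prod, Finset.mem_coe, Finset.mem_erase,
        Finset.mem_univ, and_true, Finset.mem_filter, Finset.mem_product, mem_lt, mem_mon] at hw
      obtain ⟨h2, ⟨h3, h4, h5⟩, h6⟩ := hw
      have h7 : (C w.1 * w.2.2).leadingCoeff = w.1 := by
        rw [leadingCoeff_mul, leadingCoeff_C, h4.leadingCoeff, mul_one]
      refine Prod.ext h7 (Prod.ext ?_ ?_)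
      · simp only
        rw [h7, ← mul_assoc, ← C_mul, inv_mul_cancel₀ h2, C_1, one_mul]
      · simp only
        rw [h7, ← mul_assoc, ← C_mul, inv_mul_cancel₀ h2, C_1, one_mul]

theorem card_swap (P : K[X] × K[X] → Prop) [DecidablePred P]
    [DecidablePred fun v : K[X] × K[X] => P (v.2, v.1)] (S T : Finset K[X]) :
    ((S ×ˢ T).filter P).card = ((T ×ˢ S).filter fun v => P (v.2, v.1)).card := by
  refine Finset.card_nbij' (fun v => (v.2, v.1)) (fun v => (v.2, v.1)) ?_ ?_ ?_ ?_
  · intro v hv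
    simp only [Finset.coe_filter, Finset.mem_product, Set.mem_ofPred_eq] at hv ⊢
    exact ⟨⟨hv.1.2, hv.1.1⟩, hv.2⟩
  · intro v hv
    simp only [Finset.coe_filter, Finset.mem_product, Set.mem_ofPred_eq] at hv ⊢
    exact ⟨⟨hv.1.2, hv.1.1⟩, hv.2⟩
  · intro v _
    rfl
  · intro v _
    rfl

theorem split' (P : K[X] × K[X] → Prop) [DecidablePred P]
    (hP : ∀ (c : K), c ≠ 0 → ∀ v : K[X] × K[X], P (C c * v.1, C c * v.2) ↔ P v) (a m : ℕ) :
    (((lt K (m + 1)) ×ˢ (lt K a)).filter P).card =
      (((lt K m) ×ˢ (lt K a)).filter P).card +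
        (Fintype.card K - 1) * (((mon K m) ×ˢ (lt K a)).filter P).card := by
  classical
  rw [card_swap P (lt K (m + 1)) (lt K a), card_swap P (lt K m) (lt K a),
    card_swap P (mon K m) (lt K a)]
  exact split (fun v => P (v.2, v.1)) (fun c hc v => hP c hc (v.2, v.1)) a m

theorem F_scale (b : K[X]) (c : K) (hc : c ≠ 0) (v : K[X] × K[X]) :
    b ∣ F (C c * v.1, C c * v.2) ↔ b ∣ F v := by
  have h : F (C c * v.1, C c * v.2) = C (c ^ 4) * F v := by
    unfold F
    rw [C_pow]
    ring
  rw [h]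
  have hu : IsUnit (C (c ^ 4)) := isUnit_C.2 (pow_ne_zero 4 hc).isUnit
  exact hu.dvd_mul_left

end sc

open scoped Classical in
theorem t_ex : Pool.Agent.H525.QF.S_ex := by
  intro K _ _ b τ k a T hb hk hka
  have h : Fintype.card K ^ (a - k) * Fintype.card K ^ k = Fintype.card K ^ a := by
    rw [← pow_add, Nat.sub_add_cancel hka]
  constructor
  · rw [card_lt_filter b τ k a T hb hk hka, Finset.card_product, card_lt, ← h]
    ring
  · rw [card_mon_filter b τ k a T hb hk hka, Finset.card_product, card_mon, ← h]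
    ring

open scoped Classical in
theorem t_sc : Pool.Agent.H525.QF.S_sc := by
  intro K _ _ m b
  constructor
  · exact split (fun v => b ∣ F v) (fun c hc v => F_scale b c hc v) (m + 1) m
  · exact split' (fun v => b ∣ F v) (fun c hc v => F_scale b c hc v) m m

end Pool.Agent.H277.QF
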